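import Mathlib
import Pool.Agent.Lib.HWF.Main

set_option autoImplicit false

namespace Pool.Agent.Results.MP_8a1ce7_co.EffectiveRate

/-- `h` assigns to each of the segments `s_0, …, s_n` its height (heights are numbered
`0, …, n`).  The index `i : Fin n` stands for the crease between `s_i` and `s_(i+1)`; two creases
lie at the same end iff their indices have the same parity.  Non-penetration: the height pairs of
two distinct creases at the same end do not interleave. -/
def IsFolding (n : ℕ) (h : Equiv.Perm (Fin (n + 1))) : Prop :=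
  ∀ i j : Fin n, i ≠ j → i.val % 2 = j.val % 2 →
    ¬ ∃ a b c d : Fin (n + 1), a < c ∧ c < b ∧ b < d ∧
      ({a, b} : Set (Fin (n + 1))) = {h i.castSucc, h i.succ} ∧
      ({c, d} : Set (Fin (n + 1))) = {h j.castSucc, h j.succ}

/-- the number of folded states of the strip with `n` creases -/
noncomputable def F (n : ℕ) : ℕ := Nat.card {h : Equiv.Perm (Fin (n + 1)) // IsFolding n h}

theorem result : ∃ R : ℝ, ∀ n : ℕ,
    R ^ n * Real.exp (-(10 ^ 6 * Real.sqrt n * Real.log (n + 1))) ≤ (F n : ℝ) ∧
      (F n : ℝ) ≤ (n + 1) * R ^ n :=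
  Pool.Agent.Lib.HWF.main

end Pool.Agent.Results.MP_8a1ce7_co.EffectiveRate
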