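import Mathlib
import Pool.Agent.Lib.MP_8a1ce7_co.FinLo
import Pool.Agent.Lib.MP_8a1ce7_co.FinHj
import Pool.Agent.Lib.MP_8a1ce7_co.Lim

set_option autoImplicit false

namespace Pool.Agent.Results.MP_8a1ce7_co.TwoSided

/-- `h` assigns to each of the segments `s_0, …, s_n` its height (heights are numbered
`0, …, n`).  The index `i : Fin n` stands for the crease between `s_i` and `s_(i+1)`; two creases
lie at the same end iff their indices have the same parity.  Non-penetration: the height pairs of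
two distinct creases at the same end do not interleave. -/
def IsFolding (n : ℕ) (h : Equiv.Perm (Fin (n + 1))) : Prop :=
  ∀ i j : Fin n, i ≠ j → i.val % 2 = j.val % 2 →
    ¬ ∃ a b c d : Fin (n + 1), a < c ∧ c < b ∧ b < d ∧
      ({a, b} : Set (Fin (n + 1))) = {h i.castSucc, h i.succ} ∧
      ({c, d} : Set (Fin (n + 1))) = {h j.castSucc, h j.succ}

/-- the number of folded states of the strip with `n` creases -/
noncomputable def F (n : ℕ) : ℕ := Nat.card {h : Equiv.Perm (Fin (n + 1)) // IsFolding n h}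

open Pool.Agent.Lib.MP_8a1ce7_co.D

theorem result : ∃ R : ℝ, 346 / 100 ≤ R ∧ R ≤ 3535 / 1000 ∧
    Filter.Tendsto (fun n : ℕ => (F n : ℝ) ^ (1 / (n : ℝ))) Filter.atTop (nhds R) := by
  obtain ⟨c, hc, hl⟩ : ∃ c : ℝ, 0 < c ∧ ∀ n : ℕ, c * (346 / 100) ^ n ≤ (FF n : ℝ) :=
    lower_main okLo (by decide +kernel) (by norm_num) (by norm_num) covLo1 covLo2
  obtain ⟨C, hu⟩ : ∃ C : ℝ, ∀ n : ℕ, (FF n : ℝ) ≤ C * (3535 / 1000) ^ n :=
    upper_main okHj (by norm_num) (by norm_num) covHj1 covHj2
  exact rate_between (by norm_num) (by norm_num) hc hl hu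

end Pool.Agent.Results.MP_8a1ce7_co.TwoSided
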